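import Pool.Agent.Results.MP_7e7dde_gt.ForcedFailure

set_option autoImplicit false
set_option linter.all false

open Set Topology Filter

namespace Pool.Agent.Results.MP_bff2e5_gt.ImageNotEmbeddable

open Pool.Agent.Results.MP_7e7dde_gt.LindelofNotGrothendieck

/-! ### `ω₁ + 1` does not embed in `C_p` of a Lindelöf space -/

/-- pressing down with countably many colours -/
lemma press (β : Om → Om) (n : Om → ℕ) (hβ : ∀ a, Lim a → β a < a) :
    ∃ (b : Om) (m : ℕ), ∀ c, ∃ a, c < a ∧ Lim a ∧ β a = b ∧ n a = m := by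
  by_contra hcon
  push Not at hcon
  choose c hc using hcon
  have hb : ∀ b : Om, ∃ g, ∀ m, c b m < g := by
    intro b
    obtain ⟨g, hg⟩ := bdd_of_countable (countable_range (c b))
    exact ⟨g, fun m => hg _ ⟨m, rfl⟩⟩
  choose G hG using hb
  obtain ⟨a, ⟨h1, h2⟩, -⟩ := (club_closure G).1 (Classical.arbitrary Om)
  have h3 := hβ a h1
  exact hc (β a) (n a) a ((hG _ _).trans (h2 _ h3)) h1 rfl rfl

lemma no_embedding (Z : Type) [TopologicalSpace Z] [LindelofSpace Z] :
    ¬ ∃ e : WithTop Om → Cp Z, IsEmbedding e := by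
  rintro ⟨e, he⟩
  have hcont : ∀ z : Z, Continuous fun t => (e t).1 z := fun z =>
    (continuous_apply z).comp (continuous_subtype_val.comp he.continuous)
  have hne : ∀ d : Om, ∃ z : Z, (e d).1 z ≠ (e ⊤).1 z := by
    intro d
    by_contra h
    push Not at h
    have h1 : e (d : WithTop Om) = e ⊤ := Subtype.ext (funext h)
    exact WithTop.coe_ne_top (he.injective h1)
  choose z hz using hne
  have hdata : ∀ d : Om, ∃ (b : Om) (n : ℕ), (Lim d → b < d) ∧ (Lim d → ∀ x : Om, b < x → x ≤ d →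
      1 / ((n : ℝ) + 1) < |(e x).1 (z d) - (e ⊤).1 (z d)|) := by
    intro d
    by_cases hd : Lim d
    · obtain ⟨n, hn⟩ := exists_nat_one_div_lt (abs_pos.2 (sub_ne_zero.2 (hz d)))
      have hopen : IsOpen {t : WithTop Om | 1 / ((n : ℝ) + 1) < |(e t).1 (z d) - (e ⊤).1 (z d)|} :=
        isOpen_lt continuous_const (((hcont (z d)).sub continuous_const).abs)
      have hmem := hopen.mem_nhds hn
      obtain ⟨b0, hb0⟩ := hd.1
      obtain ⟨l, hl, hl2⟩ := exists_Ioc_subset_of_mem_nhds hmem ⟨(b0 : WithTop Om), WithTop.coe_lt_coe.2 hb0⟩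
      have hlne : l ≠ ⊤ := fun h => by rw [h] at hl; exact not_top_lt hl
      lift l to Om using hlne
      refine ⟨l, n, fun _ => WithTop.coe_lt_coe.1 hl, fun _ x hx1 hx2 => ?_⟩
      exact hl2 ⟨WithTop.coe_lt_coe.2 hx1, WithTop.coe_le_coe.2 hx2⟩
    · exact ⟨d, 0, fun h => absurd h hd, fun h => absurd h hd⟩
  choose β n h1 h2 using hdata
  obtain ⟨b, m, hbm⟩ := press β n h1
  -- complete accumulation point
  have hacc : ∃ z0 : Z, ∀ O : Set Z, IsOpen O → z0 ∈ O → ∀ c : Om, ∃ a, c < a ∧ Lim a ∧ β a = b ∧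
      n a = m ∧ z a ∈ O := by
    by_contra hcon
    push Not at hcon
    choose O hO hzO c hc using hcon
    obtain ⟨T, hT, hT2⟩ := (isLindelof_univ (X := Z)).elim_nhds_subcover O
      (fun x _ => (hO x).mem_nhds (hzO x))
    obtain ⟨g, hg⟩ := bdd_of_countable (hT.image c)
    obtain ⟨a, ha1, ha2, ha3, ha4⟩ := hbm g
    have : z a ∈ (univ : Set Z) := mem_univ _
    obtain ⟨x, hx, hx2⟩ := mem_iUnion₂.1 (hT2.2 this)
    exact hc x a ((hg _ ⟨x, hx, rfl⟩).trans ha1) ha2 ha3 ha4 hx2
  obtain ⟨z0, hz0⟩ := hacc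
  have hpos : (0 : ℝ) < 1 / ((m : ℝ) + 1) := by positivity
  have hfar : ∀ x : Om, b < x → 1 / ((m : ℝ) + 1) ≤ |(e x).1 z0 - (e ⊤).1 z0| := by
    intro x hx
    by_contra h
    push Not at h
    have hO : IsOpen {y : Z | |(e x).1 y - (e ⊤).1 y| < 1 / ((m : ℝ) + 1)} :=
      isOpen_lt (((e x).2.sub (e ⊤).2).abs) continuous_const
    obtain ⟨a, ha1, ha2, ha3, ha4, ha5⟩ := hz0 _ hO h x
    have h3 := h2 a ha2 x (by rw [ha3]; exact hx) ha1.le
    rw [ha4] at h3
    exact absurd h3 (not_lt.2 (le_of_lt ha5))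
  have hO : IsOpen {t : WithTop Om | |(e t).1 z0 - (e ⊤).1 z0| < 1 / ((m : ℝ) + 1)} :=
    isOpen_lt (((hcont z0).sub continuous_const).abs) continuous_const
  have hmem : {t : WithTop Om | |(e t).1 z0 - (e ⊤).1 z0| < 1 / ((m : ℝ) + 1)} ∈ 𝓝 (⊤ : WithTop Om) :=
    hO.mem_nhds (by simp [hpos]; positivity)
  obtain ⟨l, hl, hl2⟩ := exists_Ioc_subset_of_mem_nhds hmem ⟨(b : WithTop Om), WithTop.coe_lt_top b⟩
  have hlne : l ≠ ⊤ := fun h => by rw [h] at hl; exact lt_irrefl _ hl
  lift l to Om using hlne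
  obtain ⟨x, hx⟩ := exists_gt' (max l b)
  have h5 := hl2 (a := (x : WithTop Om)) ⟨WithTop.coe_lt_coe.2 ((le_max_left _ _).trans_lt hx), le_top⟩
  exact absurd h5 (not_lt.2 (hfar x ((le_max_right _ _).trans_lt hx)))


/-! ### the compact space `K = W ∪ {0}` -/

section
variable {f : Om → Row} (hcoh : ∀ a, Coh f a)

/-- cutting off the levels `≤ a` -/
lemma cut_mem (a : Om) (v : Om × C → Bool) (hv : v ∈ XX f) [DecidablePred fun x : Om => x ≤ a] :
    (fun p : Om × C => if p.1 ≤ a then false else v p) ∈ XX f := by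
  obtain ⟨d, hd⟩ := mem_iUnion.1 hv
  have hd' : v ∈ Sv f (max a d) := Sv_mono (le_max_right _ _) hd
  refine mem_iUnion.2 ⟨max a d, fun x => ?_, fun x => ?_, fun x hx y => ?_, ?_⟩
  · by_cases h : x ≤ a
    · simp only [h, if_true]
      exact continuous_const
    · simp only [h, if_false]
      exact hd'.1 x
  · by_cases h : x ≤ a
    · exact ⟨fun _ => false, by simp only [h, if_true]⟩
    · simp only [h, if_false]
      exact hd'.2.1 x
  · show (if x ≤ a then false else v (x, y)) = false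
    rw [if_neg (not_le.2 ((le_max_left _ _).trans_lt hx))]
    exact hd'.2.2.1 x hx y
  · intro c hc
    rcases le_or_gt c a with h | h
    · filter_upwards [ev_lt c] with x hx y
      simp only [hx.le.trans h, h, if_true]
    · filter_upwards [ev_gt h, hd'.2.2.2 c hc] with x hx hx2 y
      simp only [not_le.2 hx, not_le.2 h, if_false]
      exact hx2 y

/-- the points of level at most `a` -/
def Lev (f : Om → Row) (a : Om) : Set (Cp (XX f)) := ev f '' {w | w.1 ≤ a}

/-- the compact space -/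
def KK (f : Om → Row) : Set (Cp (XX f)) := insert (zero f) (range (ev f))

lemma Lev_sub (a : Om) : Lev f a ⊆ KK f := by
  rintro _ ⟨w, -, rfl⟩
  exact Or.inr ⟨w, rfl⟩

include hcoh in
/-- the level of a point is determined: separating functions -/
lemma sep_le (w : Om × C) : ∃ v : XX f, v.1 w = true ∧ ∀ w' : Om × C, w.1 < w'.1 → v.1 w' = false := by
  obtain ⟨v, hv⟩ := exists_true hcoh w
  obtain ⟨d, hd⟩ := exists_bound v
  refine ⟨⟨trunc w.1 v.1, mem_iUnion.2 ⟨w.1, trunc_mem hd⟩⟩, ?_, fun w' hw' => ?_⟩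
  · show trunc w.1 v.1 w = true
    rw [trunc_le le_rfl, hv]
  · exact trunc_gt hw'

include hcoh in
lemma sep_gt (w : Om × C) (a : Om) (h : a < w.1) :
    ∃ v : XX f, v.1 w = true ∧ ∀ w' : Om × C, w'.1 ≤ a → v.1 w' = false := by
  classical
  obtain ⟨v, hv⟩ := exists_true hcoh w
  refine ⟨⟨_, cut_mem a v.1 v.2⟩, ?_, fun w' hw' => ?_⟩
  · show (if w.1 ≤ a then false else v.1 w) = true
    rw [if_neg (not_le.2 h), hv]
  · show (if w'.1 ≤ a then false else v.1 w') = false
    rw [if_pos hw']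

lemma ev_apply_true {w : Om × C} {v : XX f} (h : v.1 w = true) : (ev f w).1 v = 1 := by
  show (if v.1 w then (1 : ℝ) else 0) = 1
  rw [h]; simp

lemma ev_apply_false {w : Om × C} {v : XX f} (h : v.1 w = false) : (ev f w).1 v = 0 := by
  show (if v.1 w then (1 : ℝ) else 0) = 0
  rw [h]; simp

include hcoh in
lemma level_unique {w w' : Om × C} (h : ev f w = ev f w') : w.1 = w'.1 := by
  rcases lt_trichotomy w.1 w'.1 with h1 | h1 | h1
  · obtain ⟨v, hv, hv2⟩ := sep_le hcoh w
    have h2 := ev_apply_true hv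
    rw [h, ev_apply_false (hv2 w' h1)] at h2
    exact absurd h2 zero_ne_one
  · exact h1
  · obtain ⟨v, hv, hv2⟩ := sep_le hcoh w'
    have h2 := ev_apply_true hv
    rw [← h, ev_apply_false (hv2 w h1)] at h2
    exact absurd h2 zero_ne_one

include hcoh in
lemma ev_ne_zero (w : Om × C) : ev f w ≠ zero f := by
  intro h
  obtain ⟨v, hv⟩ := exists_true hcoh w
  have h2 := ev_apply_true hv
  rw [h] at h2
  exact zero_ne_one h2

include hcoh in
lemma isCompact_Lev (a : Om) : IsCompact (Lev f a) := by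
  classical
  rw [isCompact_iff_ultrafilter_le_nhds]
  intro V hV
  rw [le_principal_iff] at hV
  -- pull back to the index set
  choose g hg using fun k : Lev f a => k.2
  let r : Cp (XX f) → Om × C := fun k => if h : k ∈ Lev f a then g ⟨k, h⟩ else (a, fun _ => false)
  have hr : ∀ k ∈ Lev f a, (r k).1 ≤ a ∧ ev f (r k) = k := by
    intro k hk
    have : r k = g ⟨k, hk⟩ := dif_pos hk
    rw [this]
    exact hg ⟨k, hk⟩
  have hex : {b : Om | ∀ᶠ k in (V : Filter (Cp (XX f))), (r k).1 ≤ b}.Nonempty :=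
    ⟨a, mem_of_superset hV fun k hk => (hr k hk).1⟩
  let b := (wellFounded_lt (α := Om)).min _ hex
  have hb : ∀ᶠ k in (V : Filter (Cp (XX f))), (r k).1 ≤ b := (wellFounded_lt (α := Om)).min_mem _ hex
  have hba : b ≤ a := by
    by_contra h
    exact (wellFounded_lt (α := Om)).not_lt_min _
      (show a ∈ {b : Om | ∀ᶠ k in (V : Filter (Cp (XX f))), (r k).1 ≤ b} from
        mem_of_superset hV fun k hk => (hr k hk).1) (not_le.1 h)
  have hb' : ∀ e < b, ∀ᶠ k in (V : Filter (Cp (XX f))), ¬ (r k).1 ≤ e := by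
    intro e he
    by_contra h
    rw [Ultrafilter.eventually_not, not_not] at h
    exact (wellFounded_lt (α := Om)).not_lt_min
      {b : Om | ∀ᶠ k in (V : Filter (Cp (XX f))), (r k).1 ≤ b} h he
  obtain ⟨y, -, hy⟩ := isCompact_univ.ultrafilter_le_nhds (V.map fun k => f b (r k).1 (r k).2)
    (by simp)
  have hy' : Tendsto (fun k => f b (r k).1 (r k).2) (V : Filter (Cp (XX f))) (𝓝 y) := hy
  refine ⟨ev f (b, y), ⟨(b, y), hba, rfl⟩, ?_⟩
  have hlim : Tendsto (fun k : Cp (XX f) => k) (V : Filter (Cp (XX f))) (𝓝 (ev f (b, y))) := by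
    rw [tendsto_subtype_rng, tendsto_pi_nhds]
    intro v
    obtain ⟨d, hd⟩ := exists_bound v
    have hd' : v.1 ∈ Sv f (max b d) := Sv_mono (le_max_right _ _) hd
    have h1 : ∀ᶠ k in (V : Filter (Cp (XX f))), v.1 (r k) = v.1 (b, f b (r k).1 (r k).2) := by
      by_cases hbot : ∃ c, c < b
      · obtain ⟨e, he, h2⟩ := (ev_iff hbot).1 (hd'.2.2.2 b (le_max_left _ _))
        filter_upwards [hb, hb' e he] with k h4 h5
        rcases lt_or_eq_of_le h4 with h6 | h6
        · exact h2 (r k).1 (not_le.1 h5) h6 (r k).2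
        · have : r k = (b, (r k).2) := Prod.ext h6 rfl
          rw [this]
          simp only
          rw [(hcoh b).2.1]
          rfl
      · push Not at hbot
        filter_upwards [hb] with k h4
        have h6 : (r k).1 = b := le_antisymm h4 (hbot _)
        have : r k = (b, (r k).2) := Prod.ext h6 rfl
        rw [this]
        simp only
        rw [(hcoh b).2.1]
        rfl
    have h2 : ∀ᶠ k in (V : Filter (Cp (XX f))), v.1 (b, f b (r k).1 (r k).2) = v.1 (b, y) := by
      have h3 : Tendsto (fun k => v.1 (b, f b (r k).1 (r k).2)) (V : Filter (Cp (XX f)))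
          (𝓝 (v.1 (b, y))) := ((hd.1 b).tendsto y).comp hy'
      rw [nhds_discrete] at h3
      have h4 : ∀ᶠ k in (V : Filter (Cp (XX f))),
          v.1 (b, f b (r k).1 (r k).2) ∈ ({v.1 (b, y)} : Set Bool) := h3 (mem_pure.2 rfl)
      exact h4
    refine tendsto_const_nhds.congr' ?_
    filter_upwards [h1, h2, hV] with k h3 h4 h5
    show (if v.1 (b, y) then (1 : ℝ) else 0) = k.1 v
    rw [← (hr k h5).2]
    show (if v.1 (b, y) then (1 : ℝ) else 0) = (if v.1 (r k) then (1 : ℝ) else 0)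
    rw [h3, h4]
  exact hlim

/-- neighbourhoods of `0` in `K` contain all high levels -/
lemma high_levels (O : Set (Cp (XX f))) (hO : O ∈ 𝓝 (zero f)) :
    ∃ a, ∀ w : Om × C, a < w.1 → ev f w ∈ O := by
  have h : ∀ᶠ k in comap Prod.fst (atTop : Filter Om), ev f k ∈ O := by
    have ht : Tendsto (fun w : Om × C => ev f w) (comap Prod.fst (atTop : Filter Om)) (𝓝 (zero f)) := by
      rw [tendsto_subtype_rng, tendsto_pi_nhds]
      intro v
      obtain ⟨d, hd⟩ := exists_bound v
      refine tendsto_const_nhds.congr' ?_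
      obtain ⟨d', hd'⟩ := exists_gt' d
      have : ∀ᶠ x in (atTop : Filter Om), d < x :=
        (eventually_ge_atTop d').mono fun x hx => hd'.trans_le hx
      filter_upwards [tendsto_comap.eventually this] with w hw
      show (0 : ℝ) = (if v.1 w then (1 : ℝ) else 0)
      rw [show v.1 w = false from hd.2.2.1 w.1 hw w.2]
      simp
    exact ht hO
  rw [eventually_comap] at h
  obtain ⟨a, ha⟩ := eventually_atTop.1 h
  exact ⟨a, fun w hw => ha w.1 hw.le w rfl⟩

include hcoh in
lemma isCompact_KK : IsCompact (KK f) := by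
  classical
  rw [isCompact_iff_ultrafilter_le_nhds]
  intro V hV
  rw [le_principal_iff] at hV
  by_cases h : ∃ a, Lev f a ∈ V
  · obtain ⟨a, ha⟩ := h
    obtain ⟨x, hx, hx2⟩ := (isCompact_Lev hcoh a).ultrafilter_le_nhds V (le_principal_iff.2 ha)
    exact ⟨x, Lev_sub a hx, hx2⟩
  · push Not at h
    refine ⟨zero f, Or.inl rfl, fun O hO => ?_⟩
    obtain ⟨a, ha⟩ := high_levels O hO
    have h1 : (Lev f a)ᶜ ∈ V := Ultrafilter.compl_mem_iff_notMem.2 (h a)
    filter_upwards [h1, hV] with k hk1 hk2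
    rcases hk2 with rfl | ⟨w, rfl⟩
    · exact mem_of_mem_nhds hO
    · refine ha w ?_
      by_contra h2
      exact hk1 ⟨w, not_lt.1 h2, rfl⟩

instance : T2Space (Cp (XX f)) := inferInstance

open Classical in
/-- the level map -/
noncomputable def lev (f : Om → Row) (k : KK f) : WithTop Om :=
  if h : ∃ w, ev f w = k.1 then ((h.choose.1 : Om) : WithTop Om) else ⊤

include hcoh in
lemma lev_ev (w : Om × C) (h : ev f w ∈ KK f) : lev f ⟨ev f w, h⟩ = (w.1 : WithTop Om) := by
  classical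
  have h1 : ∃ w', ev f w' = (⟨ev f w, h⟩ : KK f).1 := ⟨w, rfl⟩
  unfold lev
  rw [dif_pos h1]
  congr 1
  exact level_unique hcoh h1.choose_spec

include hcoh in
lemma lev_zero (h : zero f ∈ KK f) : lev f ⟨zero f, h⟩ = ⊤ := by
  classical
  unfold lev
  rw [dif_neg]
  rintro ⟨w, hw⟩
  exact ev_ne_zero hcoh w hw

include hcoh in
lemma lev_le_iff (k : KK f) (a : Om) : lev f k ≤ (a : WithTop Om) ↔ k.1 ∈ Lev f a := by
  obtain ⟨k, hk⟩ := k
  constructor
  · intro h
    rcases hk with rfl | ⟨w, rfl⟩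
    · rw [lev_zero hcoh] at h
      exact absurd h (not_le.2 (WithTop.coe_lt_top a))
    · rw [lev_ev hcoh] at h
      exact ⟨w, WithTop.coe_le_coe.1 h, rfl⟩
  · rintro ⟨w, hw, h2⟩
    have h2' : ev f w = k := h2
    subst h2'
    rw [lev_ev hcoh]
    exact WithTop.coe_le_coe.2 hw

include hcoh in
lemma isOpen_lev_le (a : Om) : IsOpen {k : KK f | lev f k ≤ (a : WithTop Om)} := by
  rw [isOpen_iff_mem_nhds]
  intro k hk
  obtain ⟨w, hw, h2⟩ := (lev_le_iff hcoh k a).1 hk
  obtain ⟨v, hv, hv2⟩ := sep_le hcoh w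
  have hO : IsOpen {k' : KK f | (1 : ℝ) / 2 < k'.1.1 v} :=
    isOpen_lt continuous_const ((continuous_apply v).comp (continuous_subtype_val.comp continuous_subtype_val))
  have hmem : k ∈ {k' : KK f | (1 : ℝ) / 2 < k'.1.1 v} := by
    show (1 : ℝ) / 2 < k.1.1 v
    rw [← h2, ev_apply_true hv]
    norm_num
  refine mem_of_superset (hO.mem_nhds hmem) ?_
  rintro ⟨k', hk'⟩ (h3 : (1 : ℝ) / 2 < k'.1 v)
  show lev f ⟨k', hk'⟩ ≤ (a : WithTop Om)
  rcases hk' with rfl | ⟨w', rfl⟩
  · exfalso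
    have : (zero f).1 v = 0 := rfl
    rw [this] at h3
    norm_num at h3
  · rw [lev_ev hcoh]
    have h4 : w'.1 ≤ w.1 := by
      by_contra h5
      rw [ev_apply_false (hv2 w' (not_le.1 h5))] at h3
      norm_num at h3
    exact WithTop.coe_le_coe.2 (h4.trans hw)

include hcoh in
lemma isClosed_lev_le (a : Om) : IsClosed {k : KK f | lev f k ≤ (a : WithTop Om)} := by
  have : {k : KK f | lev f k ≤ (a : WithTop Om)} = Subtype.val ⁻¹' Lev f a := by
    ext k
    exact lev_le_iff hcoh k a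
  rw [this]
  exact (isCompact_Lev hcoh a).isClosed.preimage continuous_subtype_val

include hcoh in
lemma continuous_lev : Continuous (lev f) := by
  rw [OrderTopology.topology_eq_generate_intervals (α := WithTop Om), continuous_generateFrom_iff]
  rintro s ⟨a, rfl | rfl⟩
  · induction a using WithTop.recTopCoe with
    | top => simp [Ioi_top]
    | coe a =>
      have : lev f ⁻¹' Ioi (a : WithTop Om) = {k | lev f k ≤ (a : WithTop Om)}ᶜ := by
        ext k; simp [not_le]
      rw [this]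
      exact (isClosed_lev_le hcoh a).isOpen_compl
  · have : lev f ⁻¹' Iio a = ⋃ b : {b : Om // (b : WithTop Om) < a}, {k | lev f k ≤ (b.1 : WithTop Om)} := by
      ext k
      simp only [mem_preimage, mem_Iio, mem_iUnion, mem_setOf_eq]
      constructor
      · intro h
        have hne : lev f k ≠ ⊤ := ne_top_of_lt h
        refine ⟨⟨(lev f k).untop hne, ?_⟩, ?_⟩
        · rw [WithTop.coe_untop]; exact h
        · rw [WithTop.coe_untop]
      · rintro ⟨b, hb⟩
        exact hb.trans_lt b.2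
    rw [this]
    exact isOpen_iUnion fun b => isOpen_lev_le hcoh b.1

include hcoh in
lemma surjective_lev : Function.Surjective (lev f) := by
  intro t
  induction t using WithTop.recTopCoe with
  | top => exact ⟨⟨zero f, Or.inl rfl⟩, lev_zero hcoh _⟩
  | coe a => exact ⟨⟨ev f (a, fun _ => false), Or.inr ⟨_, rfl⟩⟩, lev_ev hcoh _ _⟩

include hcoh in
/-- the compact space `K` does not have countable tightness -/
lemma not_tight : ¬ CountablyTight (KK f) := by
  intro h
  have hz : (⟨zero f, Or.inl rfl⟩ : KK f) ∈ closure {k : KK f | lev f k ≠ ⊤} := by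
    rw [mem_closure_iff_nhds]
    intro O hO
    rw [nhds_subtype_eq_comap] at hO
    obtain ⟨O', hO', hO2⟩ := hO
    obtain ⟨a, ha⟩ := high_levels O' hO'
    obtain ⟨a', ha'⟩ := exists_gt' a
    refine ⟨⟨ev f (a', fun _ => false), Or.inr ⟨_, rfl⟩⟩, hO2 (ha _ ha'), ?_⟩
    show lev f _ ≠ ⊤
    rw [lev_ev hcoh]
    exact WithTop.coe_ne_top
  obtain ⟨B, hB, hBc, hB2⟩ := h _ _ hz
  have hfin : ∀ k : KK f, ∃ b : Om, k ∈ B → lev f k ≤ (b : WithTop Om) := by
    intro k
    by_cases hk : k ∈ B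
    · have hne : lev f k ≠ ⊤ := hB hk
      exact ⟨(lev f k).untop hne, fun _ => by rw [WithTop.coe_untop]⟩
    · exact ⟨Classical.arbitrary Om, fun h => absurd h hk⟩
  choose b hb using hfin
  obtain ⟨c, hc⟩ := bdd_of_countable (hBc.image b)
  have hsub : B ⊆ {k : KK f | lev f k ≤ (c : WithTop Om)} := fun k hk =>
    (hb k hk).trans (WithTop.coe_le_coe.2 (hc _ ⟨k, hk, rfl⟩).le)
  have h1 := (isClosed_lev_le hcoh c).closure_subset_iff.2 hsub hB2
  have h2 : lev f (⟨zero f, Or.inl rfl⟩ : KK f) ≤ (c : WithTop Om) := h1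
  rw [lev_zero hcoh] at h2
  exact absurd h2 (not_le.2 (WithTop.coe_lt_top c))

end

open Pool.Agent.Helper220.ForceCH (OmegaOnePreserved DiamondHolds)

/-- Some forcing notion forces diamond (and preserves `ω₁`), and diamond implies that there are a
Lindelöf Tychonoff space `Y`, a compact space `X` which embeds in `C_p(Y)` and has uncountable
tightness, and a continuous image `X₁` of `X` (namely `ω₁ + 1`) which embeds in `C_p(Z)` for no
Lindelöf space `Z`. -/
theorem result :
    (∃ (P : Type) (_ : Preorder P), Nonempty P ∧ ∀ p : P,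
      p ∈ OmegaOnePreserved P ∧ p ∈ DiamondHolds P) ∧
    (Pool.Agent.Results.MP_7e7dde_gt.ForcedFailure.Diamond →
      ∃ (Y X X₁ : Type) (_ : TopologicalSpace Y) (_ : TopologicalSpace X)
        (_ : TopologicalSpace X₁),
        T35Space Y ∧ LindelofSpace Y ∧
        T2Space X ∧ CompactSpace X ∧ (∃ e : X → Cp Y, IsEmbedding e) ∧ ¬ CountablyTight X ∧
        T2Space X₁ ∧ CompactSpace X₁ ∧ (∃ g : X → X₁, Continuous g ∧ Function.Surjective g) ∧
        ∀ (Z : Type) [TopologicalSpace Z], LindelofSpace Z →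
          ¬ ∃ e : X₁ → Cp Z, IsEmbedding e) := by
  constructor
  · obtain ⟨P, hP, hne, h⟩ := Pool.Agent.Helper220.ForceCH.exists_forcing
    exact ⟨P, hP, hne, fun p => ⟨(h p).1, (h p).2.1⟩⟩
  · intro h
    obtain ⟨f, hcoh, hcov⟩ := main_core
      (Pool.Agent.Results.MP_7e7dde_gt.ForcedFailure.old_diamond h)
    haveI hX : CompactSpace (KK f) := isCompact_iff_compactSpace.1 (isCompact_KK hcoh)
    refine ⟨XX f, KK f, WithTop Om, inferInstance, inferInstance, inferInstance, inferInstance,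
      lindelof_XX hcov, inferInstance, hX, ⟨Subtype.val, IsEmbedding.subtypeVal⟩,
      not_tight hcoh, inferInstance, ?_, ⟨lev f, continuous_lev hcoh, surjective_lev hcoh⟩, ?_⟩
    · refine isCompact_univ_iff.1 ?_
      rw [← (surjective_lev hcoh).range_eq]
      exact isCompact_range (continuous_lev hcoh)
    · intro Z _ hZ
      exact no_embedding Z

end Pool.Agent.Results.MP_bff2e5_gt.ImageNotEmbeddable

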